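import Pool.Agent.helper17.RX.Spec

set_option autoImplicit false

namespace TP.TW

open DP MeasureTheory Finset

theorem ENV_prn (prn : PRN_stmt) (N : ℕ) (ε : Fin N → V) (hε : Function.Injective ε) (P : (Fin N → Bool) → Prop)
    [inst : DecidablePred P] : Pr {β : V → Bool | P (fun i => β (ε i))} = (#{x : Fin N → Bool | P x} : ℝ) / 2 ^ N := by
  have h : inst = fun a => Classical.propDecidable (P a) := Subsingleton.elim _ _
  subst h
  exact prn N ε hε P

instance ENV_prob : IsProbabilityMeasure P1 := by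
  unfold P1
  infer_instance

theorem ENV_mono {A B : Set (V → Bool)} (h : A ⊆ B) : Pr A ≤ Pr B := by
  unfold Pr
  exact measureReal_mono h (measure_ne_top _ _)

theorem ENV_nonneg (A : Set (V → Bool)) : 0 ≤ Pr A := by
  unfold Pr
  exact measureReal_nonneg

theorem ENV_le_one (A : Set (V → Bool)) : Pr A ≤ 1 := by
  unfold Pr
  exact measureReal_le_one

theorem ENV (enx : EN.ENX_stmt) (prn : PRN_stmt) : ENV_stmt := by
  classical
  intro κ T S Ω Λ z N E j hE hRnd hNN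
  have hdep : ∀ τ ∈ T, ∀ i (β β' : V → Bool), (∀ v ∈ Ω, β v = β' v) → S τ i β = S τ i β' := by
    intro τ hτ i β β' h
    obtain ⟨h0, h1, h3⟩ := hRnd τ hτ
    cases i with
    | zero => rw [h0, h0]
    | succ i => exact h3 i β β' (fun v hv => h v ((h1 i β).2 hv))
  rcases (ENV_nonneg E).eq_or_lt with hp0 | hp
  · have hz : ∀ τ ∈ T, Pr (E ∩ {β | z ∈ S τ (j + 1) β}) = 0 := by
      intro τ _
      exact le_antisymm ((ENV_mono Set.inter_subset_left).trans hp0.symm.le) (ENV_nonneg _)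
    rw [sum_eq_zero hz, ← hp0]
    simp
  have hN0 : 0 ≤ N := (sum_nonneg fun τ _ => ENV_nonneg _).trans (hNN 0 z (mem_insert_self _ _))
  obtain ⟨W, hW⟩ : ∃ W : Finset V, W = insert z Λ ∪ Ω := ⟨_, rfl⟩
  obtain ⟨ε, hε⟩ : ∃ ε : Fin #W → V, ε = fun i => (W.equivFin.symm i).1 := ⟨_, rfl⟩
  have hinj : Function.Injective ε := by
    rw [hε]
    intro i j h
    exact W.equivFin.symm.injective (Subtype.ext h)
  obtain ⟨ex, hex⟩ : ∃ ex : (Fin #W → Bool) → V → Bool,
      ∀ x v (h : v ∈ W), ex x v = x (W.equivFin ⟨v, h⟩) :=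
    ⟨fun x v => if h : v ∈ W then x (W.equivFin ⟨v, h⟩) else false, fun x v h => by simp only [h, dif_pos]⟩
  have hεv : ∀ v (h : v ∈ W), ε (W.equivFin ⟨v, h⟩) = v := by
    intro v h
    rw [hε]
    simp
  have hzΛ : insert z Λ ⊆ W := by
    rw [hW]
    exact subset_union_left
  have hΛW : Λ ⊆ W := (subset_insert _ _).trans hzΛ
  have hzW : z ∈ W := hzΛ (mem_insert_self _ _)
  have hΩW : Ω ⊆ W := by
    rw [hW]
    exact subset_union_right
  have hexE : ∀ β : V → Bool, ex (fun i => β (ε i)) ∈ E ↔ β ∈ E := by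
    intro β
    exact hE _ _ fun v hv => by rw [hex _ v (hΛW hv), hεv]
  have hexS : ∀ τ ∈ T, ∀ i (β : V → Bool), S τ i (ex (fun k => β (ε k))) = S τ i β := by
    intro τ hτ i β
    apply hdep τ hτ
    intro v hv
    rw [hex _ _ (hΩW hv), hεv]
  have hPE : Pr E = (#{x : Fin #W → Bool | ex x ∈ E} : ℝ) / 2 ^ #W := by
    rw [← ENV_prn prn _ ε hinj (fun x => ex x ∈ E)]
    congr 1
    ext β
    exact (hexE β).symm
  obtain ⟨S', hS'⟩ : ∃ S' : κ → ℕ → EN.Om #W → Finset (Fin #W), ∀ τ i x k, k ∈ S' τ i x ↔ ε k ∈ S τ i (ex x) :=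
    ⟨fun τ i x => univ.filter fun k => ε k ∈ S τ i (ex x),
      fun τ i x k => by rw [mem_filter]; exact and_iff_right (mem_univ _)⟩
  have hR : ∀ τ ∈ T, EN.Rounds (S' τ) := by
    intro τ hτ
    obtain ⟨h0, h1, h3⟩ := hRnd τ hτ
    refine ⟨?_, ?_⟩
    · intro x
      ext k
      rw [hS', h0]
      simp
    · intro i x
      refine ⟨?_, ?_⟩
      · intro k hk
        rw [hS'] at hk ⊢
        exact (h1 i _).1 hk
      · intro y hy
        have e : S τ (i + 1) (ex x) = S τ (i + 1) (ex y) := by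
          apply h3
          intro v hv
          have hvW := hΩW ((h1 i _).2 hv)
          rw [hex y _ hvW, hex x _ hvW]
          symm
          apply hy
          rw [hS', hεv]
          exact hv
        ext k
        rw [hS', hS', e]
  have hcnt : ∀ τ ∈ T, ∀ i (v : Fin #W), (#{x : EN.Om #W | v ∈ S' τ i x} : ℝ) / 2 ^ #W = Pr {β | ε v ∈ S τ i β} := by
    intro τ hτ i v
    rw [← ENV_prn prn _ ε hinj (fun x => v ∈ S' τ i x)]
    congr 1
    ext β
    simp only [Set.mem_setOf_eq]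
    rw [hS', hexS τ hτ i β]
  have hN : ∀ i : ℕ, ∀ v ∈ insert (W.equivFin ⟨z, hzW⟩) (univ.filter fun k => ε k ∈ Λ),
      ∑ τ ∈ T, (#{x : EN.Om #W | v ∈ S' τ i x} : ℝ) / 2 ^ #W ≤ N := by
    intro i v hv
    have hv' : ε v ∈ insert z Λ := by
      rw [mem_insert] at hv ⊢
      rcases hv with rfl | hv
      · left
        rw [hεv]
      · right
        exact (mem_filter.1 hv).2
    rw [sum_congr rfl fun τ hτ => hcnt τ hτ i v]
    exact hNN i _ hv'
  obtain ⟨Q, hQ⟩ : ∃ Q : EN.Om #W → ℝ, ∀ x, Q x = if ex x ∈ E then 1 / (2 ^ #W * Pr E) else 0 := ⟨_, fun _ => rfl⟩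
  have hQs : ∀ (P : EN.Om #W → Prop) [DecidablePred P], Pr E * ∑ x with P x, Q x = (#{x : EN.Om #W | P x ∧ ex x ∈ E} : ℝ) / 2 ^ #W := by
    intro P _
    simp_rw [hQ]
    rw [← sum_filter, filter_filter, sum_const, nsmul_eq_mul]
    field_simp
  have hlaw : EN.Law Q := by
    refine ⟨?_, ?_⟩
    · intro x
      rw [hQ]
      split_ifs
      · positivity
      · exact le_rfl
    · simp_rw [hQ]
      rw [← sum_filter, sum_const, nsmul_eq_mul]
      have h5 : (#{x : Fin #W → Bool | ex x ∈ E} : ℝ) = Pr E * 2 ^ #W := by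
        rw [hPE]
        field_simp
      rw [h5]
      field_simp
  have hl0 : 0 ≤ Real.log (1 / Pr E) := Real.log_nonneg (one_le_one_div hp (ENV_le_one E))
  have hQdep : ∀ x y : EN.Om #W, (∀ u ∈ univ.filter (fun k => ε k ∈ Λ), x u = y u) → Q x = Q y := by
    intro x y hxy
    have h6 : ex x ∈ E ↔ ex y ∈ E := by
      apply hE
      intro v hv
      rw [hex x v (hΛW hv), hex y v (hΛW hv)]
      apply hxy
      rw [mem_filter]
      refine ⟨mem_univ _, ?_⟩
      rw [hεv]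
      exact hv
    rw [hQ, hQ]
    simp only [h6]
  have hQle : ∀ x, Q x ≤ Real.exp (Real.log (1 / Pr E)) / 2 ^ #W := by
    intro x
    rw [Real.exp_log (by positivity), hQ]
    split_ifs
    · apply le_of_eq
      field_simp
    · positivity
  have key := enx j #W κ T S' (univ.filter fun k => ε k ∈ Λ) (W.equivFin ⟨z, hzW⟩) N hR hN Q (Real.log (1 / Pr E)) hlaw hQdep hl0 hQle
    (W.equivFin ⟨z, hzW⟩) (mem_insert_self _ _)
  have hint : ∀ τ ∈ T, Pr (E ∩ {β | z ∈ S τ (j + 1) β}) = Pr E * ∑ x with W.equivFin ⟨z, hzW⟩ ∈ S' τ (j + 1) x, Q x := by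
    intro τ hτ
    rw [hQs, ← ENV_prn prn _ ε hinj (fun x => (W.equivFin ⟨z, hzW⟩ ∈ S' τ (j + 1) x) ∧ ex x ∈ E)]
    congr 1
    ext β
    simp only [Set.mem_inter_iff, Set.mem_setOf_eq]
    rw [hS', hexE, hεv, hexS τ hτ, and_comm]
  rw [sum_congr rfl hint, ← mul_sum]
  refine mul_le_mul_of_nonneg_left (key.trans ?_) hp.le
  have hcard : (#(univ.filter fun k => ε k ∈ Λ) : ℝ) ≤ #Λ := by
    exact_mod_cast card_le_card_of_injOn ε (fun k hk => (mem_filter.1 hk).2) hinj.injOn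
  have hf0 : (0 : ℝ) ≤ #(univ.filter fun k => ε k ∈ Λ) := Nat.cast_nonneg _
  have hlog : Real.log ((#(univ.filter fun k => ε k ∈ Λ) : ℝ) + 3) ≤ Real.log (#Λ + 3) :=
    Real.log_le_log (by linarith) (by linarith)
  have hl1 : 0 ≤ Real.log ((#(univ.filter fun k => ε k ∈ Λ) : ℝ) + 3) := Real.log_nonneg (by linarith)
  have hj0 : (0 : ℝ) ≤ 3 * ((j : ℝ) + 1) := by positivity
  refine mul_le_mul_of_nonneg_left (pow_le_pow_left₀ ?_ ?_ j) hN0
  · have := mul_nonneg hj0 hl1
    linarith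
  · have := mul_le_mul_of_nonneg_left hlog hj0
    linarith

end TP.TW
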